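import Pool.Agent.K7.H26.SHI.Eta

/-!
# Duality for asymptotic inequalities in a preordered semiring
-/

set_option autoImplicit false

namespace Pool.Agent.L7h86.AS

open Pool.Agent.K7.H26.SHI

universe u
variable {S : Type u} [CommSemiring S] {le : S → S → Prop}

theorem val_nat (hB : Base le) {R : Set (S × S)} (h : Good le R)
    (ht : ∀ a b, (a, b) ∈ R ∨ (b, a) ∈ R) (n : ℕ) : val R (n : S) = n := by
  induction n with
  | zero =>
    have h1 := val_add hB h ht (0 : S) 0
    rw [add_zero] at h1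
    rw [Nat.cast_zero, Nat.cast_zero]
    linarith
  | succ n ih =>
    rw [Nat.cast_succ, val_add hB h ht, ih, val_one hB h]
    push_cast
    rfl

theorem iter_le (hB : Base le) (n : ℕ) (u v : S) (h : le ((n : S) * u) (n * v)) (t : ℕ) :
    le ((n : S) * u ^ t) (n * v ^ t) := by
  induction t with
  | zero => simpa using hB.refl (n : S)
  | succ t ih =>
    have a1 := hB.mul _ _ u ih
    have a2 := hB.mul _ _ (v ^ t) h
    have e1 : (n : S) * u ^ t * u = n * u ^ (t + 1) := by ring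
    have e2 : (n : S) * v ^ t * u = n * u * v ^ t := by ring
    have e3 : (n : S) * v * v ^ t = n * v ^ (t + 1) := by ring
    rw [e1, e2] at a1
    rw [e3] at a2
    exact hB.trans _ _ _ a1 a2

theorem one_le_pow' (hB : Base le) {b : S} (hb : le 1 b) (n : ℕ) : le 1 (b ^ n) := by
  have := hB.pow hb n
  rwa [one_pow] at this

/-- **Duality.** If `a` is at most `b` for all functionals then `a ^ n` is at most a
subexponential multiple of `b ^ n`. -/
theorem abs_dual (hB : Base le) (a b : S) (hb : b ≠ 0)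
    (h : ∀ R : Set (S × S), Good le R → (∀ a b, (a, b) ∈ R ∨ (b, a) ∈ R) → val R a ≤ val R b)
    (ε : ℝ) (hε : 0 < ε) :
    ∃ C : ℝ, ∀ n : ℕ, ∃ m : ℕ, (m : ℝ) ≤ C * (1 + ε) ^ n ∧ le (a ^ n) (m * b ^ n) := by
  by_contra hcon
  push Not at hcon
  have hb1 : le 1 b := (hB.one b).resolve_left hb
  obtain ⟨q, hq⟩ := exists_nat_gt (1 / ε)
  have hq0 : (0 : ℝ) < q := lt_trans (by positivity) hq
  have hq0' : 0 < q := by exact_mod_cast hq0
  rw [div_lt_iff₀ hε] at hq
  set p : ℕ := q + 1 with hp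
  have hβ : (0 : ℝ) < (p : ℝ) := by rw [hp]; positivity
  have hαβ : (p : ℝ) < q * (1 + ε) := by
    rw [hp]
    push_cast
    linarith
  have hx : (p : S) * b ≠ 0 := by
    intro h0
    have h1 := hB.mul' (hB.refl (p : S)) hb1
    rw [h0, mul_one] at h1
    have h2 : le (p : S) ((0 : ℕ) : S) := by simpa using h1
    have := hB.nat _ _ h2
    omega
  have hobs : ∀ j L N : ℕ, le ((j : S) * ((q : S) * a) ^ N) ((L : S) * ((p : S) * b) ^ N) →
      (j : ℝ) * (q * (1 + ε)) ^ N ≤ L * (p : ℝ) ^ N := by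
    intro j L N hle
    by_contra hlt
    push Not at hlt
    set J : ℕ := j * q ^ N with hJ
    set M : ℕ := L * p ^ N with hM
    have hle' : le ((J : S) * a ^ N) ((M : S) * b ^ N) := by
      have e1 : (j : S) * ((q : S) * a) ^ N = (J : S) * a ^ N := by
        rw [hJ]; push_cast; ring
      have e2 : (L : S) * ((p : S) * b) ^ N = (M : S) * b ^ N := by
        rw [hM]; push_cast; ring
      rwa [e1, e2] at hle
    have hlt' : (M : ℝ) < J * (1 + ε) ^ N := by
      have e1 : (J : ℝ) * (1 + ε) ^ N = (j : ℝ) * (q * (1 + ε)) ^ N := by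
        rw [hJ, mul_pow]; push_cast; ring
      have e2 : (M : ℝ) = L * (p : ℝ) ^ N := by
        rw [hM]; push_cast; ring
      rw [e1, e2]
      exact hlt
    have hJ0 : 0 < J := by
      rcases Nat.eq_zero_or_pos J with h0 | h0
      · rw [h0] at hlt'
        have : (0 : ℝ) ≤ M := by positivity
        simp at hlt'
        linarith
      · exact h0
    have hJ0' : (0 : ℝ) < J := by exact_mod_cast hJ0
    have hN : N ≠ 0 := by
      rintro rfl
      rw [pow_zero, pow_zero, mul_one, mul_one] at hle'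
      have h1 := hB.nat _ _ hle'
      rw [pow_zero, mul_one] at hlt'
      have h2 : M < J := by exact_mod_cast hlt'
      omega
    set σ : ℝ := (1 + ε) ^ N with hσ
    have hσ1 : 1 < σ := one_lt_pow₀ (by linarith) hN
    set τ : ℝ := max ((M : ℝ) / J) 1 with hτ
    have hτ1 : 1 ≤ τ := le_max_right _ _
    have hτσ : τ < σ := by
      refine max_lt ?_ hσ1
      rw [div_lt_iff₀ hJ0']
      linarith
    obtain ⟨s₀, hs₀⟩ := pow_unbounded_of_one_lt (2 : ℝ) ((one_lt_div (by linarith)).2 hτσ)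
    set s : ℕ := s₀ + 1 with hs
    have hs2 : 2 * τ ^ s ≤ σ ^ s := by
      have h1 : (2 : ℝ) ≤ (σ / τ) ^ s :=
        hs₀.le.trans (pow_le_pow_right₀ ((one_le_div (by linarith)).2 hτσ.le) (by omega))
      rw [div_pow, le_div_iff₀ (by positivity)] at h1
      exact h1
    set c : ℕ := M ^ s / J ^ s + 1 with hc
    have hcM : M ^ s ≤ J ^ s * c := by
      have h1 := Nat.lt_div_mul_add (a := M ^ s) (b := J ^ s) (pow_pos hJ0 s)
      rw [hc, mul_add, mul_one, mul_comm]
      omega
    have hcσ : (c : ℝ) ≤ σ ^ s := by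
      have h1 : ((M ^ s / J ^ s : ℕ) : ℝ) ≤ (M : ℝ) ^ s / (J : ℝ) ^ s := by
        have := Nat.cast_div_le (α := ℝ) (m := M ^ s) (n := J ^ s)
        push_cast at this
        exact this
      have h2 : (M : ℝ) ^ s / (J : ℝ) ^ s ≤ τ ^ s := by
        rw [← div_pow]
        exact pow_le_pow_left₀ (by positivity) (le_max_left _ _) s
      have h3 : (1 : ℝ) ≤ τ ^ s := one_le_pow₀ hτ1
      rw [hc]
      push_cast
      linarith
    set T : ℕ := N * s with hT
    have hT0 : 0 < T := Nat.mul_pos (Nat.pos_of_ne_zero hN) (by omega)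
    have h1 : le (((J ^ s : ℕ) : S) * a ^ T) (((J ^ s : ℕ) : S) * ((c : S) * b ^ T)) := by
      have h2 := hB.pow hle' s
      have e1 : ((J : S) * a ^ N) ^ s = ((J ^ s : ℕ) : S) * a ^ T := by
        rw [mul_pow, ← pow_mul]; push_cast; rfl
      have e2 : ((M : S) * b ^ N) ^ s = ((M ^ s : ℕ) : S) * b ^ T := by
        rw [mul_pow, ← pow_mul]; push_cast; rfl
      rw [e1, e2] at h2
      refine hB.trans _ _ _ h2 ?_
      have h3 := hB.mul _ _ (b ^ T) (hB.nat_mono hcM)
      have e3 : (((J ^ s * c : ℕ) : S)) * b ^ T = ((J ^ s : ℕ) : S) * ((c : S) * b ^ T) := by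
        push_cast; ring
      rwa [e3] at h3
    have h2 := iter_le hB _ _ _ h1
    choose K hK using fun r : ℕ => hB.arch (a ^ r)
    set KK : ℕ := ∑ r ∈ Finset.range T, K r with hKK
    have hKr : ∀ r, r < T → le (a ^ r) ((KK : S) * b ^ r) := by
      intro r hr
      refine hB.trans _ _ _ (hK r) ?_
      refine hB.trans _ _ _ (hB.nat_mono (Finset.single_le_sum (f := K) (fun _ _ => Nat.zero_le _)
        (Finset.mem_range.2 hr))) ?_
      have := hB.mul' (hB.refl (KK : S)) (one_le_pow' hB hb1 r)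
      rwa [mul_one] at this
    obtain ⟨n, hn⟩ := hcon ((J : ℝ) ^ s * KK)
    refine hn (J ^ s * c ^ (n / T) * KK) ?_ ?_
    · have h3 : ((c : ℝ)) ^ (n / T) ≤ (1 + ε) ^ n := by
        calc (c : ℝ) ^ (n / T) ≤ (σ ^ s) ^ (n / T) := pow_le_pow_left₀ (by positivity) hcσ _
          _ = (1 + ε) ^ (T * (n / T)) := by rw [hσ, ← pow_mul, ← pow_mul, hT, ← mul_assoc]
          _ ≤ (1 + ε) ^ n := pow_le_pow_right₀ (by linarith) (Nat.mul_div_le n T)
      push_cast
      calc (J : ℝ) ^ s * (c : ℝ) ^ (n / T) * KK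
          = ((J : ℝ) ^ s * KK) * (c : ℝ) ^ (n / T) := by ring
        _ ≤ ((J : ℝ) ^ s * KK) * (1 + ε) ^ n := by gcongr
    · have h3 : n = T * (n / T) + n % T := (Nat.div_add_mod n T).symm
      have h4 : le ((a ^ T) ^ (n / T)) (((J ^ s : ℕ) : S) * ((c : S) * b ^ T) ^ (n / T)) := by
        refine hB.trans _ _ _ ?_ (h2 (n / T))
        have h5 : le 1 (((J ^ s : ℕ)) : S) := by
          have := hB.nat_mono (n := 1) (m := J ^ s) (Nat.one_le_iff_ne_zero.2 (pow_pos hJ0 s).ne')
          simpa using this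
        have := hB.mul _ _ ((a ^ T) ^ (n / T)) h5
        rwa [one_mul] at this
      have h5 := hB.mul' h4 (hKr (n % T) (Nat.mod_lt _ hT0))
      have e1 : (a ^ T) ^ (n / T) * a ^ (n % T) = a ^ n := by
        rw [← pow_mul, ← pow_add, ← h3]
      have e2 : ((J ^ s : ℕ) : S) * ((c : S) * b ^ T) ^ (n / T) * ((KK : S) * b ^ (n % T)) =
          ((J ^ s * c ^ (n / T) * KK : ℕ) : S) * b ^ n := by
        have e3 : b ^ n = (b ^ T) ^ (n / T) * b ^ (n % T) := by
          rw [← pow_mul, ← pow_add, ← h3]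
        rw [e3]
        push_cast
        rw [mul_pow]
        ring
      rwa [e1, e2] at h5
  obtain ⟨R, hG, hxy, ht⟩ := exists_total hB ((p : S) * b) ((q : S) * a) hx (q * (1 + ε)) p hβ hαβ
    hobs
  have h1 := val_mono hB hG ht hxy
  rw [val_mul hB hG ht, val_mul hB hG ht, val_nat hB hG ht, val_nat hB hG ht] at h1
  have h2 := h R hG ht
  have h3 : 1 ≤ val R b := by
    rw [← val_one hB hG]
    exact val_mono hB hG ht (hG.ext _ _ hb1)
  have h4 : (p : ℝ) = q + 1 := by rw [hp]; push_cast; rfl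
  rw [h4] at h1
  nlinarith

end Pool.Agent.L7h86.AS
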