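import Pool.Agent.L7h86.AS.Pre

/-!
# The asymptotic spectrum of finite schemes
-/

set_option autoImplicit false

namespace Pool.Agent.L7h86.AS

open scoped TensorProduct PowerSeries Topology
open Pool.Agent.H826R3.SM Pool.Agent.TH671.DU Pool.Agent.N86.SQ Pool.Agent.R566.DG
open Pool.Agent.K7.H26.SHI Filter

/-- Spectral functionals: normalised, additive on products, multiplicative on tensor products,
monotone under subquotients, and at most the dimension on smoothable algebras. -/
structure IsSpectral (k : Type) [Field k] (φ : FA k → ℝ) : Prop where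
  one : φ (FA.point k) = 1
  prod : ∀ A B : FA k, φ (FA.prod A B) = φ A + φ B
  tensor : ∀ A B : FA k, φ (FA.tensor A B) = φ A * φ B
  subquotient : ∀ A B : FA k, IsSubquotient k A.car B.car → φ A ≤ φ B
  smoothable : ∀ A : FA k, Smoothable k A.car → φ A ≤ Module.finrank k A.car

/-- Semicontinuity: the functional does not increase under degeneration. -/
def Semicontinuous (k : Type) [Field k] (φ : FA k → ℝ) : Prop :=
  ∀ A B : FA k, IsDeg k B.car A.car → φ A ≤ φ B

variable {k : Type} [Field k]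

namespace IsSpectral

variable {φ : FA k → ℝ} (h : IsSpectral k φ)

include h

theorem of_equiv (A B : FA k) (e : A.car ≃ₐ[k] B.car) : φ A = φ B :=
  le_antisymm (h.subquotient _ _ (IsSubquotient.of_injective e.toAlgHom e.injective))
    (h.subquotient _ _ (IsSubquotient.of_injective e.symm.toAlgHom e.symm.injective))

/-- the functional on classes -/
theorem congr {A B : FA k} (e : cls k A.car = cls k B.car) : φ A = φ B := by
  obtain ⟨e⟩ := cls_iff.1 e
  exact h.of_equiv _ _ e

theorem zero : φ ⟨PUnit.{1}⟩ = 0 := by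
  have h1 := h.prod ⟨PUnit.{1}⟩ ⟨PUnit.{1}⟩
  have h2 : φ ⟨PUnit.{1} × PUnit.{1}⟩ = φ ⟨PUnit.{1}⟩ := h.congr (by
    change cls k PUnit.{1} + cls k PUnit.{1} = cls k PUnit.{1}
    rw [← cls_zero, add_zero])
  linarith

theorem nonneg (A : FA k) : 0 ≤ φ A := by
  rw [← h.zero]
  exact h.subquotient _ _ (IsSubquotient.of_surjective
      ({ toFun := fun _ => 0
         map_one' := rfl
         map_zero' := rfl
         map_mul' := fun _ _ => rfl
         map_add' := fun _ _ => rfl
         commutes' := fun _ => rfl } : A.car →ₐ[k] PUnit.{1}) fun y => ⟨0, rfl⟩)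

theorem fin (A : FA k) (n : ℕ) : φ ⟨Fin n → A.car⟩ = n * φ A := by
  induction n with
  | zero =>
    rw [Nat.cast_zero, zero_mul, ← h.zero]
    refine h.congr ?_
    change cls k (Fin 0 → A.car) = _
    rw [cls_fin, Nat.cast_zero, zero_mul, cls_zero]
  | succ n ih =>
    have h1 : φ ⟨Fin (n + 1) → A.car⟩ = φ ⟨(Fin n → A.car) × A.car⟩ := h.congr (by
      change cls k (Fin (n + 1) → A.car) = cls k ((Fin n → A.car) × A.car)
      exact cls_iff.2 (finCons_equiv A.car n))
    rw [h1, h.prod ⟨Fin n → A.car⟩ A, ih]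
    push_cast
    ring

theorem pow (A : FA k) (n : ℕ) : φ ⟨Pow k A.car n⟩ = φ A ^ n := by
  induction n with
  | zero =>
    rw [pow_zero, ← h.one]
    exact h.of_equiv _ _ (powZero k A.car)
  | succ n ih =>
    rw [pow_succ', ← ih, ← h.tensor]
    exact h.of_equiv _ _ (powSucc k A.car n)

theorem le_of_fam {A : FA k} {D : ℕ} (hD : Fam k A.car D) : φ A ≤ D := by
  obtain ⟨D', hD', B, cB, aB, hBf, hBs, hBd, f, hf⟩ := hD.inSmoothable
  refine (h.subquotient A ⟨B⟩ (IsSubquotient.of_surjective f hf)).trans ?_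
  refine (h.smoothable ⟨B⟩ hBs).trans ?_
  change (Module.finrank k B : ℝ) ≤ D
  rw [hBd]
  exact_mod_cast hD'

theorem one_le (A : FA k) [Nontrivial A.car] : 1 ≤ φ A := by
  rw [← h.one]
  exact h.subquotient _ _ (IsSubquotient.of_injective (Algebra.ofId k A.car)
    (algebraMap k A.car).injective)

theorem below (hs : Semicontinuous k φ) {A B : FA k} (hAB : Below k A B) : φ A ≤ φ B := by
  induction hAB with
  | subquotient A B hAB => exact h.subquotient _ _ hAB
  | degeneration A B hAB => exact hs _ _ hAB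
  | smoothable A hA =>
    have h1 := h.fin ⟨k⟩ (Module.finrank k A.car)
    rw [h.one, mul_one] at h1
    exact (h.smoothable _ hA).trans h1.ge
  | trans A B C _ _ h1 h2 => exact h1.trans h2
  | prod A B C D _ _ h1 h2 =>
    rw [h.prod, h.prod]
    exact add_le_add h1 h2
  | tensor A B C D _ _ h1 h2 =>
    rw [h.tensor, h.tensor]
    exact mul_le_mul h1 h2 (h.nonneg _) (h.nonneg _)

end IsSpectral

variable [IsAlgClosed k]

theorem IsSpectral.le_mdeg {φ : FA k → ℝ} (h : IsSpectral k φ) (A : FA k) : φ A ≤ mdeg k A.car := by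
  obtain ⟨D, hD⟩ := exists_fam (k := k) A.car
  exact h.le_of_fam (mdeg_spec hD)

/-- spectral functionals are bounded by the growth rate -/
theorem IsSpectral.le_rate {φ : FA k → ℝ} (h : IsSpectral k φ) (A : FA k) [Nontrivial A.car] :
    φ A ≤ rate k A.car := by
  refine le_of_forall_pos_le_add fun η hη => ?_
  obtain ⟨C, hC, hG⟩ := rate_growth (k := k) A.car η hη
  have h1 : ∀ n, φ A ^ n ≤ C * (rate k A.car + η) ^ n := by
    intro n
    rw [← h.pow A n]
    exact (h.le_mdeg ⟨Pow k A.car n⟩).trans (hG n)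
  have hr : (0 : ℝ) < rate k A.car + η := by
    have := finrank_le_rate (k := k) A.car
    have h2 : (0 : ℝ) ≤ Module.finrank k A.car := by positivity
    linarith
  by_contra hcon
  push Not at hcon
  obtain ⟨n, hn⟩ := pow_unbounded_of_one_lt C ((one_lt_div hr).2 hcon)
  rw [div_pow, lt_div_iff₀ (by positivity)] at hn
  linarith [h1 n]

/-- the functional of a total preorder -/
theorem spectral_of_total {R : Set (Cls k × Cls k)} (hG : Good leC R)
    (ht : ∀ a b, (a, b) ∈ R ∨ (b, a) ∈ R) :
    IsSpectral k (fun A => val R (cls k A.car)) ∧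
      ∀ A B : FA k, Below k A B → val R (cls k A.car) ≤ val R (cls k B.car) := by
  have hB := base_leC (k := k)
  have hmono : ∀ A B : FA k, Below k A B → val R (cls k A.car) ≤ val R (cls k B.car) :=
    fun A B h => val_mono hB hG ht (hG.ext _ _ ((leC_iff A B).2 h))
  refine ⟨⟨?_, fun A B => ?_, fun A B => ?_,
    fun A B h => hmono A B (.subquotient A B h), fun A h => ?_⟩, hmono⟩
  · exact val_one hB hG
  · change val R (cls k A.car + cls k B.car) = _
    exact val_add hB hG ht (cls k A.car) (cls k B.car)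
  · change val R (cls k A.car * cls k B.car) = _
    exact val_mul hB hG ht (cls k A.car) (cls k B.car)
  · have h1 := hmono _ _ (.smoothable A h)
    have h2 : val R (cls k (Fin (Module.finrank k A.car) → k)) = Module.finrank k A.car := by
      rw [cls_fin, ← cls_one, mul_one, val_nat hB hG ht]
    exact h1.trans h2.le

theorem exists_near (A : FA k) [Nontrivial A.car] (x : ℝ) (hx : x < rate k A.car) :
    ∃ φ : FA k → ℝ, IsSpectral k φ ∧ Semicontinuous k φ ∧ x ≤ φ A := by
  have hB := base_leC (k := k)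
  have hr1 : (1 : ℝ) ≤ rate k A.car := by
    refine le_trans ?_ (finrank_le_rate A.car)
    exact_mod_cast (Module.finrank_pos (R := k) (M := A.car))
  obtain ⟨ρ, hρ1, hρ2⟩ := exists_rat_btwn (show max x 0 < rate k A.car from max_lt hx (by linarith))
  have hρ0 : 0 < ρ := by
    have := (le_max_right x 0).trans_lt hρ1
    exact_mod_cast this
  have hxρ : x < ρ := (le_max_left x 0).trans_lt hρ1
  set p : ℕ := ρ.num.natAbs with hp
  set q : ℕ := ρ.den with hq
  have hq0 : (0 : ℝ) < q := by
    rw [hq]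
    exact_mod_cast ρ.den_pos
  have hpz : ((p : ℕ) : ℤ) = ρ.num := Int.natAbs_of_nonneg (Rat.num_nonneg.2 hρ0.le)
  have hpq : (ρ : ℝ) = p / q := by
    have h1 : (ρ : ℝ) = (ρ.num : ℝ) / (ρ.den : ℝ) := by exact_mod_cast (Rat.num_div_den ρ).symm
    rw [h1, ← hpz]
    push_cast
    rfl
  have hp0 : (0 : ℝ) < p := by
    have h1 : (0 : ℝ) < p / q := by rw [← hpq]; exact_mod_cast hρ0
    exact (div_pos_iff_of_pos_right hq0).1 h1
  have hαβ : (p : ℝ) < q * rate k A.car := by
    rw [hpq, div_lt_iff₀ hq0] at hρ2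
    linarith
  have hx0 : (p : Cls k) ≠ 0 := by
    intro h0
    have h1 := congrArg mu h0
    rw [mu_nat, mu_zero] at h1
    rw [h1] at hp0
    simp at hp0
  obtain ⟨R, hG, hxy, ht⟩ := exists_total hB (p : Cls k) ((q : Cls k) * cls k A.car) hx0
    (q * rate k A.car) p hp0 hαβ (by
      intro j L N hle
      have h1 := hle.mu
      have e1 : (j : Cls k) * ((q : Cls k) * cls k A.car) ^ N =
          ((j * q ^ N : ℕ) : Cls k) * cls k (Pow k A.car N) := by
        rw [cls_pow]; push_cast; ring
      have e2 : (L : Cls k) * (p : Cls k) ^ N = ((L * p ^ N : ℕ) : Cls k) := by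
        push_cast; rfl
      rw [e1, e2, mu_nat_mul, mu_nat, mu_cls] at h1
      have h2 := rate_pow_le (k := k) A.car N
      calc (j : ℝ) * (q * rate k A.car) ^ N = ((j : ℝ) * q ^ N) * rate k A.car ^ N := by
            rw [mul_pow]; ring
        _ ≤ ((j : ℝ) * q ^ N) * mdeg k (Pow k A.car N) := by gcongr
        _ ≤ L * (p : ℝ) ^ N := by exact_mod_cast h1)
  obtain ⟨h1, h2⟩ := spectral_of_total hG ht
  refine ⟨_, h1, fun B C h => h2 B C (.degeneration B C h), ?_⟩
  have h3 := val_mono hB hG ht hxy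
  rw [val_mul hB hG ht, val_nat hB hG ht, val_nat hB hG ht] at h3
  have h4 : x * q ≤ p := by
    rw [hpq, lt_div_iff₀ hq0] at hxρ
    exact hxρ.le
  change x ≤ val R (cls k A.car)
  have h5 : x * q ≤ val R (cls k A.car) * q := by linarith
  exact le_of_mul_le_mul_right h5 hq0

/-- **The growth rate is attained by a spectral functional.** -/
theorem exists_max (A : FA k) [Nontrivial A.car] :
    ∃ φ : FA k → ℝ, IsSpectral k φ ∧ Semicontinuous k φ ∧ φ A = rate k A.car := by
  choose φ h1 h2 h3 using fun i : ℕ => exists_near A (rate k A.car - 1 / ((i : ℝ) + 1)) (by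
    have : (0 : ℝ) < 1 / ((i : ℝ) + 1) := by positivity
    linarith)
  let U : Ultrafilter ℕ := hyperfilter ℕ
  have hlim : ∀ B : FA k, ∃ x : ℝ, Tendsto (fun i => φ i B) U (𝓝 x) := by
    intro B
    obtain ⟨x, -, hx⟩ := (isCompact_Icc (a := (0 : ℝ)) (b := mdeg k B.car)).ultrafilter_le_nhds'
      (U.map fun i => φ i B) (by
        refine Filter.mem_map.2 (Filter.univ_mem' fun i => ?_)
        exact ⟨(h1 i).nonneg B, (h1 i).le_mdeg B⟩)
    exact ⟨x, hx⟩
  choose ψ hψ using hlim
  refine ⟨ψ, ⟨?_, ?_, ?_, ?_, ?_⟩, ?_, ?_⟩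
  · exact tendsto_nhds_unique (hψ _) (tendsto_const_nhds.congr fun i => ((h1 i).one).symm)
  · intro B C
    exact tendsto_nhds_unique (hψ _) (((hψ B).add (hψ C)).congr fun i => ((h1 i).prod B C).symm)
  · intro B C
    exact tendsto_nhds_unique (hψ _) (((hψ B).mul (hψ C)).congr fun i => ((h1 i).tensor B C).symm)
  · intro B C h
    exact le_of_tendsto_of_tendsto' (hψ B) (hψ C) fun i => (h1 i).subquotient B C h
  · intro B h
    exact le_of_tendsto' (hψ B) fun i => (h1 i).smoothable B h
  · intro B C h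
    exact le_of_tendsto_of_tendsto' (hψ B) (hψ C) fun i => h2 i B C h
  · have hr : Tendsto (fun i : ℕ => rate k A.car - 1 / ((i : ℝ) + 1)) U (𝓝 (rate k A.car - 0)) := by
      refine tendsto_const_nhds.sub ?_
      refine tendsto_one_div_add_atTop_nhds_zero_nat.mono_left ?_
      rw [← Nat.cofinite_eq_atTop]
      exact hyperfilter_le_cofinite
    rw [sub_zero] at hr
    refine le_antisymm ?_ (le_of_tendsto_of_tendsto' hr (hψ A) fun i => h3 i)
    exact le_of_tendsto' (hψ A) fun i => (h1 i).le_rate A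

/-- **Duality.** -/
theorem duality (A B : FA k) [Nontrivial B.car] :
    (∀ φ : FA k → ℝ, IsSpectral k φ → Semicontinuous k φ → φ A ≤ φ B) ↔
      ∀ ε : ℝ, 0 < ε → ∃ C : ℝ, ∀ n : ℕ, ∃ m : ℕ, (m : ℝ) ≤ C * (1 + ε) ^ n ∧
        Below k (FA.power A n) (FA.copies m (FA.power B n)) := by
  have hB := base_leC (k := k)
  have hb : cls k B.car ≠ 0 := by
    intro h0
    have h1 := congrArg mu h0
    rw [mu_zero, mu_cls] at h1
    have h2 := finrank_le_mdeg (k := k) B.car
    have h3 : 0 < Module.finrank k B.car := Module.finrank_pos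
    omega
  constructor
  · intro h ε hε
    obtain ⟨C, hC⟩ := abs_dual hB (cls k A.car) (cls k B.car) hb (by
      intro R hG ht
      obtain ⟨h1, h2⟩ := spectral_of_total hG ht
      exact h _ h1 fun X Y hXY => h2 X Y (.degeneration X Y hXY)) ε hε
    refine ⟨C, fun n => ?_⟩
    obtain ⟨m, hm1, hm2⟩ := hC n
    refine ⟨m, hm1, ?_⟩
    rw [← cls_pow, ← cls_pow, ← cls_fin] at hm2
    exact (leC_iff ⟨Pow k A.car n⟩ ⟨Fin m → Pow k B.car n⟩).1 hm2
  · intro h φ hφ hs
    have hpos : 0 < φ B := lt_of_lt_of_le one_pos (hφ.one_le B)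
    have key : ∀ ε : ℝ, 0 < ε → φ A ≤ (1 + ε) * φ B := by
      intro ε hε
      obtain ⟨C, hC⟩ := h ε hε
      by_contra hcon
      push Not at hcon
      have hpos' : 0 < (1 + ε) * φ B := by positivity
      obtain ⟨n, hn⟩ := pow_unbounded_of_one_lt C ((one_lt_div hpos').2 hcon)
      obtain ⟨m, hm1, hm2⟩ := hC n
      have h1 := hφ.below hs hm2
      rw [hφ.pow A n, hφ.fin ⟨Pow k B.car n⟩ m, hφ.pow B n] at h1
      rw [div_pow, lt_div_iff₀ (by positivity), mul_pow] at hn
      have h2 : (m : ℝ) * φ B ^ n ≤ C * (1 + ε) ^ n * φ B ^ n := by gcongr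
      nlinarith
    refine le_of_forall_pos_le_add fun η hη => ?_
    have h1 := key (η / φ B) (by positivity)
    have h2 : (1 + η / φ B) * φ B = φ B + η := by field_simp
    linarith

end Pool.Agent.L7h86.AS
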