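import Pool.Agent.L7h86.AS.Main

/-!
# The number of points is the least spectral functional
-/

set_option autoImplicit false
set_option linter.unusedSectionVars false

namespace Pool.Agent.L7h86.AS

open scoped TensorProduct PowerSeries Topology
open Pool.Agent.H826R3.SM Pool.Agent.TH671.DU Pool.Agent.N86.SQ Pool.Agent.R566.DG

variable {k : Type} [Field k]

/-- the number of points -/
noncomputable def npts (k : Type) [Field k] (A : Type) [CommRing A] [Algebra k A] : ℕ :=
  Nat.card (A →ₐ[k] k)

instance finite_pts (A : Type) [CommRing A] [Algebra k A] [Module.Finite k A] :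
    Finite (A →ₐ[k] k) := by
  have h := cardinalMk_algHom_le_rank k A k
  rw [Cardinal.lift_id] at h
  exact Cardinal.lt_aleph0_iff_finite.1 (h.trans_lt (Module.rank_lt_aleph0 k A))

theorem npts_one : npts k k = 1 := by
  have h : Subsingleton (k →ₐ[k] k) := inferInstance
  have : Nonempty (k →ₐ[k] k) := ⟨AlgHom.id k k⟩
  exact Nat.card_eq_one_iff_unique.2 ⟨h, this⟩

theorem npts_prod (A B : Type) [CommRing A] [Algebra k A] [Module.Finite k A] [CommRing B]
    [Algebra k B] [Module.Finite k B] : npts k (A × B) = npts k A + npts k B := by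
  classical
  unfold npts
  rw [← Nat.card_sum]
  refine (Nat.card_congr (Equiv.ofBijective
    (Sum.elim (fun f : A →ₐ[k] k => f.comp (AlgHom.fst k A B))
      (fun g : B →ₐ[k] k => g.comp (AlgHom.snd k A B))) ⟨?_, ?_⟩)).symm
  · rintro (f | f) (g | g) h
    · congr 1
      refine AlgHom.ext fun a => ?_
      exact DFunLike.congr_fun h (a, 0)
    · exfalso
      have h1 : f 1 = g 0 := DFunLike.congr_fun h (1, 0)
      rw [map_one, map_zero] at h1
      exact one_ne_zero h1
    · exfalso
      have h1 : f 0 = g 1 := DFunLike.congr_fun h (1, 0)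
      rw [map_one, map_zero] at h1
      exact zero_ne_one h1
    · congr 1
      refine AlgHom.ext fun a => ?_
      exact DFunLike.congr_fun h (0, a)
  · intro φ
    have h0 : φ (1, 0) * φ (0, 1) = 0 := by
      rw [← map_mul]
      have : ((1, 0) : A × B) * (0, 1) = 0 := by ext <;> simp
      rw [this, map_zero]
    have h1 : φ (1, 0) + φ (0, 1) = 1 := by
      rw [← map_add]
      have : ((1, 0) : A × B) + (0, 1) = 1 := by ext <;> simp
      rw [this, map_one]
    have hdec : ∀ x : A × B, φ x = φ (x.1, 0) + φ (0, x.2) := by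
      intro x
      rw [← map_add]
      congr 1
      ext <;> simp
    rcases mul_eq_zero.1 h0 with h | h
    · rw [h, zero_add] at h1
      refine ⟨Sum.inr (AlgHom.ofLinearMap (φ.toLinearMap ∘ₗ LinearMap.inr k A B) h1 ?_), ?_⟩
      · intro x y
        change φ (0, x * y) = φ (0, x) * φ (0, y)
        rw [← map_mul]
        congr 1
        ext <;> simp
      · refine AlgHom.ext fun x => ?_
        change φ (0, x.2) = φ x
        have h2 : φ (x.1, 0) = 0 := by
          have : ((x.1, 0) : A × B) = (x.1, 0) * (1, 0) := by ext <;> simp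
          rw [this, map_mul, h, mul_zero]
        rw [hdec x, h2, zero_add]
    · rw [h, add_zero] at h1
      refine ⟨Sum.inl (AlgHom.ofLinearMap (φ.toLinearMap ∘ₗ LinearMap.inl k A B) h1 ?_), ?_⟩
      · intro x y
        change φ (x * y, 0) = φ (x, 0) * φ (y, 0)
        rw [← map_mul]
        congr 1
        ext <;> simp
      · refine AlgHom.ext fun x => ?_
        change φ (x.1, 0) = φ x
        have h2 : φ (0, x.2) = 0 := by
          have : ((0, x.2) : A × B) = (0, x.2) * (0, 1) := by ext <;> simp
          rw [this, map_mul, h, mul_zero]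
        rw [hdec x, h2, add_zero]

theorem npts_tensor (A B : Type) [CommRing A] [Algebra k A] [Module.Finite k A] [CommRing B]
    [Algebra k B] [Module.Finite k B] : npts k (A ⊗[k] B) = npts k A * npts k B := by
  unfold npts
  rw [← Nat.card_prod]
  refine (Nat.card_congr (Equiv.ofBijective
    (fun p : (A →ₐ[k] k) × (B →ₐ[k] k) => Algebra.TensorProduct.productMap p.1 p.2)
    ⟨?_, ?_⟩)).symm
  · rintro ⟨f, g⟩ ⟨f', g'⟩ h
    have h' : Algebra.TensorProduct.productMap f g = Algebra.TensorProduct.productMap f' g' := h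
    refine Prod.ext ?_ ?_
    · refine AlgHom.ext fun a => ?_
      have h1 := DFunLike.congr_fun h' (a ⊗ₜ 1)
      simpa using h1
    · refine AlgHom.ext fun a => ?_
      have h1 := DFunLike.congr_fun h' (1 ⊗ₜ a)
      simpa using h1
  · intro φ
    refine ⟨(φ.comp Algebra.TensorProduct.includeLeft, φ.comp Algebra.TensorProduct.includeRight),
      ?_⟩
    refine Algebra.TensorProduct.ext' fun a b => ?_
    rw [Algebra.TensorProduct.productMap_apply_tmul]
    change φ (a ⊗ₜ 1) * φ (1 ⊗ₜ b) = _
    rw [← map_mul, Algebra.TensorProduct.tmul_mul_tmul, mul_one, one_mul]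

theorem npts_surj {A B : Type} [CommRing A] [Algebra k A] [CommRing B]
    [Algebra k B] [Module.Finite k A] (f : A →ₐ[k] B) (hf : Function.Surjective f) :
    npts k B ≤ npts k A := by
  refine Nat.card_le_card_of_injective (fun φ : B →ₐ[k] k => φ.comp f) fun φ ψ h => ?_
  refine AlgHom.ext fun b => ?_
  obtain ⟨a, rfl⟩ := hf b
  exact DFunLike.congr_fun h a

theorem npts_inj [IsAlgClosed k] {A B : Type} [CommRing A] [Algebra k A] [CommRing B]
    [Algebra k B] [Module.Finite k B] (f : A →ₐ[k] B) (hf : Function.Injective f) :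
    npts k A ≤ npts k B := by
  refine Nat.card_le_card_of_surjective (fun φ : B →ₐ[k] k => φ.comp f) fun φ => ?_
  let _ : Algebra A B := f.toRingHom.toAlgebra
  have htow : IsScalarTower k A B := IsScalarTower.of_algebraMap_eq fun c => (f.commutes c).symm
  have hint : Algebra.IsIntegral A B := by
    refine ⟨fun b => ?_⟩
    exact (Algebra.IsIntegral.isIntegral (R := k) b).tower_top
  have hφs : Function.Surjective φ := fun c => ⟨algebraMap k A c, φ.commutes c⟩
  have hmax : (RingHom.ker φ).IsMaximal := RingHom.ker_isMaximal_of_surjective φ hφs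
  obtain ⟨Q, hQ, hQP⟩ := Ideal.exists_ideal_over_maximal_of_isIntegral (S := B) (RingHom.ker φ) (by
    intro x hx
    have h1 : f x = 0 := hx
    rw [map_eq_zero_iff f hf] at h1
    rw [h1]
    exact Ideal.zero_mem _)
  let _ : Field (B ⧸ Q) := Ideal.Quotient.field Q
  have hbij : Function.Bijective (algebraMap k (B ⧸ Q)) :=
    IsAlgClosed.algebraMap_bijective_of_isIntegral
  let e : k ≃ₐ[k] (B ⧸ Q) := AlgEquiv.ofBijective (Algebra.ofId k (B ⧸ Q)) hbij
  let ψ : B →ₐ[k] k := e.symm.toAlgHom.comp (Ideal.Quotient.mkₐ k Q)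
  refine ⟨ψ, ?_⟩
  refine AlgHom.ext fun a => ?_
  -- `a - φ a` is in the kernel
  have h1 : a - algebraMap k A (φ a) ∈ RingHom.ker φ := by
    rw [RingHom.mem_ker, map_sub, AlgHom.commutes]
    exact sub_self _
  rw [← hQP] at h1
  have h2 : f (a - algebraMap k A (φ a)) ∈ Q := h1
  have h3 : ψ (f (a - algebraMap k A (φ a))) = 0 := by
    change e.symm (Ideal.Quotient.mk Q _) = 0
    rw [Ideal.Quotient.eq_zero_iff_mem.2 h2, map_zero]
  rw [map_sub, map_sub, AlgHom.commutes, AlgHom.commutes] at h3
  exact sub_eq_zero.1 h3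

variable [IsAlgClosed k]

/-- the number of points is a spectral functional -/
theorem isSpectral_npts : IsSpectral k (fun A => (npts k A.car : ℝ)) where
  one := by
    change ((npts k k : ℕ) : ℝ) = 1
    rw [npts_one, Nat.cast_one]
  prod A B := by
    change ((npts k (A.car × B.car) : ℕ) : ℝ) = _
    rw [npts_prod]
    push_cast
    rfl
  tensor A B := by
    change ((npts k (A.car ⊗[k] B.car) : ℕ) : ℝ) = _
    rw [npts_tensor]
    push_cast
    rfl
  subquotient A B h := by
    obtain ⟨S, f, hf⟩ := h
    have hfin : Module.Finite k S := inferInstance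
    exact_mod_cast (npts_surj f hf).trans (npts_inj S.val Subtype.val_injective)
  smoothable A _ := by
    exact_mod_cast card_algHom_le_finrank k A.car k

/-- the degree is a spectral functional -/
theorem isSpectral_finrank : IsSpectral k (fun A => (Module.finrank k A.car : ℝ)) where
  one := by
    change ((Module.finrank k k : ℕ) : ℝ) = 1
    rw [Module.finrank_self, Nat.cast_one]
  prod A B := by
    change ((Module.finrank k (A.car × B.car) : ℕ) : ℝ) = _
    rw [Module.finrank_prod]
    push_cast
    rfl
  tensor A B := by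
    change ((Module.finrank k (A.car ⊗[k] B.car) : ℕ) : ℝ) = _
    rw [Module.finrank_tensorProduct]
    push_cast
    rfl
  subquotient A B h := by
    obtain ⟨S, f, hf⟩ := h
    have h1 := f.toLinearMap.finrank_le_finrank_of_surjective hf
    have h2 := LinearMap.finrank_le_finrank_of_injective (f := S.val.toLinearMap)
      Subtype.val_injective
    exact_mod_cast h1.trans h2
  smoothable A _ := le_rfl

theorem semicontinuous_finrank : Semicontinuous k (fun A => (Module.finrank k A.car : ℝ)) := by
  intro A B h
  exact Nat.cast_le.2 h.rank.2.le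

/-- the number of points is a lower bound -/
theorem IsSpectral.npts_le {φ : FA k → ℝ} (h : IsSpectral k φ) (A : FA k) :
    (npts k A.car : ℝ) ≤ φ A := by
  classical
  have := Fintype.ofFinite (A.car →ₐ[k] k)
  -- the evaluation at all points is surjective
  let ev : A.car →ₐ[k] ((A.car →ₐ[k] k) → k) := AlgHom.pi fun φ => φ
  have hev : Function.Surjective ev := by
    have hco : Pairwise fun φ ψ : A.car →ₐ[k] k =>
        IsCoprime (RingHom.ker φ) (RingHom.ker ψ) := by
      intro φ ψ hne
      have hm1 : (RingHom.ker φ).IsMaximal :=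
        RingHom.ker_isMaximal_of_surjective φ fun c => ⟨algebraMap k _ c, φ.commutes c⟩
      have hm2 : (RingHom.ker ψ).IsMaximal :=
        RingHom.ker_isMaximal_of_surjective ψ fun c => ⟨algebraMap k _ c, ψ.commutes c⟩
      refine Ideal.isCoprime_of_isMaximal fun heq => hne ?_
      refine AlgHom.ext fun a => ?_
      have h1 : a - algebraMap k A.car (φ a) ∈ RingHom.ker φ := by
        rw [RingHom.mem_ker, map_sub, AlgHom.commutes]
        exact sub_self _
      rw [heq, RingHom.mem_ker, map_sub, AlgHom.commutes] at h1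
      exact (sub_eq_zero.1 h1).symm
    have hsurj := Ideal.pi_quotient_surjective hco
    intro y
    choose a ha using fun φ : A.car →ₐ[k] k =>
      (⟨algebraMap k _ (y φ), φ.commutes (y φ)⟩ : ∃ a, φ a = y φ)
    obtain ⟨z, hz⟩ := hsurj fun φ => Ideal.Quotient.mk _ (a φ)
    refine ⟨z, ?_⟩
    funext φ
    have h1 := hz φ
    rw [Ideal.Quotient.eq, RingHom.mem_ker, map_sub, sub_eq_zero] at h1
    change φ z = y φ
    rw [h1, ha]
  have h1 := h.fin ⟨k⟩ (npts k A.car)
  rw [h.one, mul_one] at h1
  rw [← h1]
  have e : (A.car →ₐ[k] k) ≃ Fin (npts k A.car) := Finite.equivFin _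
  let E : ((A.car →ₐ[k] k) → k) ≃ₐ[k] (Fin (npts k A.car) → k) :=
    AlgEquiv.piCongrLeft k (fun _ => k) e
  exact h.subquotient _ _ (IsSubquotient.of_surjective (E.toAlgHom.comp ev)
    (E.surjective.comp hev))

end Pool.Agent.L7h86.AS
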