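import Pool.Agent.L7h86.AS.Points

/-!
# Asymptotic containment, cancellation
-/

set_option autoImplicit false
set_option linter.unusedSectionVars false

namespace Pool.Agent.L7h86.AS

open scoped TensorProduct PowerSeries Topology
open Pool.Agent.H826R3.SM Pool.Agent.TH671.DU Pool.Agent.N86.SQ Pool.Agent.R566.DG

variable {k : Type} [Field k]

theorem piFin_equiv {n : ℕ} (X : Fin (n + 1) → Type) [∀ i, CommRing (X i)]
    [∀ i, Algebra k (X i)] :
    Nonempty ((∀ i, X i) ≃ₐ[k] (X 0 × ∀ i : Fin n, X i.succ)) := by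
  refine ⟨AlgEquiv.ofBijective
    ({ toFun := fun f => (f 0, fun i => f i.succ)
       map_one' := rfl
       map_zero' := rfl
       map_mul' := fun _ _ => rfl
       map_add' := fun _ _ => rfl
       commutes' := fun _ => rfl } : (∀ i, X i) →ₐ[k] (X 0 × ∀ i : Fin n, X i.succ)) ⟨?_, ?_⟩⟩
  · intro f g h
    have h1 : f 0 = g 0 := congrArg Prod.fst h
    have h2 : (fun i : Fin n => f i.succ) = (fun i : Fin n => g i.succ) := congrArg Prod.snd h
    funext i
    refine Fin.cases h1 (fun i => ?_) i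
    exact congrFun h2 i
  · rintro ⟨x, f⟩
    exact ⟨Fin.cons x f, rfl⟩

theorem IsSpectral.pi {φ : FA k → ℝ} (h : IsSpectral k φ) : ∀ {n : ℕ} (X : Fin n → FA k),
    φ (FA.pi X) = ∑ i, φ (X i) := by
  intro n
  induction n with
  | zero =>
    intro X
    rw [Finset.univ_eq_empty, Finset.sum_empty, ← h.zero]
    refine h.of_equiv _ _ (AlgEquiv.ofBijective
      ({ toFun := fun _ => 0
         map_one' := rfl
         map_zero' := rfl
         map_mul' := fun _ _ => rfl
         map_add' := fun _ _ => rfl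
         commutes' := fun _ => rfl } : (∀ i : Fin 0, (X i).car) →ₐ[k] PUnit.{1})
      ⟨fun x y _ => Subsingleton.elim x y, fun y => ⟨0, rfl⟩⟩)
  | succ n ih =>
    intro X
    obtain ⟨e⟩ := piFin_equiv (k := k) (fun i => (X i).car)
    rw [Fin.sum_univ_succ, ← ih, ← h.prod]
    exact h.of_equiv _ _ e

/-- Asymptotic containment: the `n`-th power of `Spec A` is obtained from a subexponential number
of copies of the `n`-th power of `Spec B`. -/
def AsympLe (k : Type) [Field k] (A B : FA k) : Prop :=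
  ∀ ε : ℝ, 0 < ε → ∃ C : ℝ, ∀ n : ℕ, ∃ m : ℕ, (m : ℝ) ≤ C * (1 + ε) ^ n ∧
    Below k (FA.power A n) (FA.copies m (FA.power B n))

/-- the spectrum -/
def InSpectrum (k : Type) [Field k] (φ : FA k → ℝ) : Prop :=
  IsSpectral k φ ∧ Semicontinuous k φ

variable [IsAlgClosed k]

theorem asympLe_iff (A B : FA k) [Nontrivial B.car] :
    AsympLe k A B ↔ ∀ φ : FA k → ℝ, InSpectrum k φ → φ A ≤ φ B := by
  unfold AsympLe InSpectrum
  rw [← duality]
  exact ⟨fun h φ hφ => h φ hφ.1 hφ.2, fun h φ h1 h2 => h φ ⟨h1, h2⟩⟩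

/-- the value of a polynomial with coefficients `C 0, …, C r` -/
def polyOf (k : Type) [Field k] {r : ℕ} (C : Fin (r + 1) → FA k) (A : FA k) : FA k :=
  FA.pi fun i => FA.tensor (C i) (FA.power A i)

theorem IsSpectral.polyOf {φ : FA k → ℝ} (h : IsSpectral k φ) {r : ℕ} (C : Fin (r + 1) → FA k)
    (A : FA k) : φ (polyOf k C A) = ∑ i, φ (C i) * φ A ^ (i : ℕ) := by
  have h1 := h.pi fun i : Fin (r + 1) => (⟨(C i).car ⊗[k] Pow k A.car i⟩ : FA k)
  refine h1.trans (Finset.sum_congr rfl fun i _ => ?_)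
  rw [h.tensor (C i) ⟨Pow k A.car i⟩, h.pow]

theorem nontrivial_polyOf {r : ℕ} (C : Fin (r + 1) → FA k) (B : FA k) [Nontrivial B.car]
    (i₀ : Fin (r + 1)) (hi : Nontrivial (C i₀).car) : Nontrivial (polyOf k C B).car := by
  have h1 := nontrivial_pow (k := k) B.car (i₀ : ℕ)
  have h2 : Nontrivial ((C i₀).car ⊗[k] Pow k B.car i₀) := by
    refine Module.nontrivial_of_finrank_pos (R := k) ?_
    rw [Module.finrank_tensorProduct]
    exact Nat.mul_pos Module.finrank_pos Module.finrank_pos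
  obtain ⟨x, y, hxy⟩ := h2
  classical
  refine ⟨⟨Pi.single i₀ x, Pi.single i₀ y, fun h => hxy ?_⟩⟩
  exact Pi.single_injective i₀ h

theorem polyOf_cancel {r : ℕ} (C : Fin (r + 1) → FA k) (i₀ : Fin (r + 1)) (h0 : i₀ ≠ 0)
    (hi : Nontrivial (C i₀).car) (A B : FA k) [Nontrivial B.car]
    (h : AsympLe k (polyOf k C A) (polyOf k C B)) : AsympLe k A B := by
  have hnt := nontrivial_polyOf C B i₀ hi
  rw [asympLe_iff] at h ⊢
  intro φ hφ
  have h1 := h φ hφ
  rw [hφ.1.polyOf, hφ.1.polyOf] at h1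
  by_contra hcon
  push Not at hcon
  have h2 : ∑ i, φ (C i) * φ B ^ (i : ℕ) < ∑ i, φ (C i) * φ A ^ (i : ℕ) := by
    refine Finset.sum_lt_sum (fun i _ => ?_) ⟨i₀, Finset.mem_univ _, ?_⟩
    · exact mul_le_mul_of_nonneg_left (pow_le_pow_left₀ (hφ.1.nonneg B) hcon.le _)
        (hφ.1.nonneg _)
    · have h3 : (i₀ : ℕ) ≠ 0 := fun h => h0 (Fin.ext h)
      refine mul_lt_mul_of_pos_left (pow_lt_pow_left₀ hcon (hφ.1.nonneg B) h3) ?_
      exact lt_of_lt_of_le one_pos (hφ.1.one_le (C i₀))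
  linarith

theorem rate_le_of_asympLe (A B : FA k) [Nontrivial A.car] [Nontrivial B.car]
    (h : AsympLe k A B) : rate k A.car ≤ rate k B.car := by
  obtain ⟨φ, h1, h2, h3⟩ := exists_max A
  rw [← h3]
  exact ((asympLe_iff A B).1 h φ ⟨h1, h2⟩).trans (h1.le_rate B)

theorem qOne_iff_spectral (A : FA k) [Nontrivial A.car] :
    QOne k A.car ↔ ∀ φ : FA k → ℝ, InSpectrum k φ → φ A ≤ Module.finrank k A.car := by
  rw [qOne_iff_rate]
  constructor
  · intro h φ hφ
    rw [← h]
    exact hφ.1.le_rate A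
  · intro h
    obtain ⟨φ, h1, h2, h3⟩ := exists_max A
    exact le_antisymm (h3 ▸ h φ ⟨h1, h2⟩) (finrank_le_rate A.car)

theorem qOne_iff_asympLe (A : FA k) [Nontrivial A.car] :
    QOne k A.car ↔ AsympLe k A (FA.copies (Module.finrank k A.car) (FA.point k)) := by
  have hpos : 0 < Module.finrank k A.car := Module.finrank_pos
  have hnt : Nontrivial (Fin (Module.finrank k A.car) → k) := by
    have : Nonempty (Fin (Module.finrank k A.car)) := ⟨⟨0, hpos⟩⟩
    infer_instance
  rw [qOne_iff_spectral, asympLe_iff A (FA.copies (Module.finrank k A.car) (FA.point k))]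
  refine forall_congr' fun φ => forall_congr' fun hφ => ?_
  have h1 := hφ.1.fin ⟨k⟩ (Module.finrank k A.car)
  rw [hφ.1.one, mul_one] at h1
  rw [h1]

end Pool.Agent.L7h86.AS
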