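import Pool.Agent.L7h86.AS.Semi
import Pool.Agent.L7h86.AS.Abs
import Pool.Agent.R566.DG.Gr
import Pool.Agent.N86.SQ.Rate

/-!
# The preorder generated by subquotients, degenerations and smoothings
-/

set_option autoImplicit false
set_option linter.unusedSectionVars false

namespace Pool.Agent.L7h86.AS

open scoped TensorProduct PowerSeries
open Pool.Agent.H826R3.SM Pool.Agent.TH671.DU Pool.Agent.N86.SQ Pool.Agent.R566.DG
open Pool.Agent.K7.H26.SHI

/-- The smallest preorder on finite algebras which is compatible with products and tensor products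
and contains: subquotients; degenerations; a smoothable algebra of dimension `d` is below `k ^ d`. -/
inductive Below (k : Type) [Field k] : FA k → FA k → Prop
  | subquotient (A B : FA k) (h : IsSubquotient k A.car B.car) : Below k A B
  | degeneration (A B : FA k) (h : IsDeg k B.car A.car) : Below k A B
  | smoothable (A : FA k) (h : Smoothable k A.car) :
      Below k A (FA.copies (Module.finrank k A.car) (FA.point k))
  | trans (A B C : FA k) (h : Below k A B) (h' : Below k B C) : Below k A C
  | prod (A B C D : FA k) (h : Below k A B) (h' : Below k C D) :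
      Below k (FA.prod A C) (FA.prod B D)
  | tensor (A B C D : FA k) (h : Below k A B) (h' : Below k C D) :
      Below k (FA.tensor A C) (FA.tensor B D)

variable {k : Type} [Field k]

section basic

variable {A B C : Type} [CommRing A] [Algebra k A] [CommRing B] [Algebra k B] [CommRing C]
  [Algebra k C]

theorem isSubquotient_tensor (h : IsSubquotient k A B) :
    IsSubquotient k (A ⊗[k] C) (B ⊗[k] C) := by
  obtain ⟨S, f, hf⟩ := h
  refine IsSubquotient.mk' (Algebra.TensorProduct.map S.val (AlgHom.id k C)) ?_
    (Algebra.TensorProduct.map f (AlgHom.id k C)) ?_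
  · exact Module.Flat.rTensor_preserves_injective_linearMap (M := C) S.val.toLinearMap
      Subtype.val_injective
  · exact TensorProduct.map_surjective hf Function.surjective_id

theorem dg_refl (C : Type) [CommRing C] [Algebra k C] [Module.Finite k C] : Dg k C C := by
  let π : (k⟦X⟧ ⊗[k] C) →ₐ[k] C := Algebra.TensorProduct.productMap
    ((Algebra.ofId k C).comp (AlgHom.mk (PowerSeries.constantCoeff (R := k))
      (fun c => PowerSeries.constantCoeff_C c))) (AlgHom.id k C)
  have hπ : ∀ (r : k⟦X⟧) (x : C), π (r ⊗ₜ x) = PowerSeries.constantCoeff r • x := by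
    intro r x
    rw [Algebra.TensorProduct.productMap_apply_tmul, Algebra.smul_def]
    rfl
  refine ⟨k⟦X⟧ ⊗[k] C, inferInstance, inferInstance, 0, 0, LinearMap.id, LinearMap.id,
    π.toRingHom, inferInstance, inferInstance, ?_, ?_, ?_, ?_, ?_⟩
  · intro x y
    rw [pow_zero, one_smul]
    rfl
  · rw [pow_zero, one_smul]
    rfl
  · intro x
    rw [pow_zero, one_smul]
    rfl
  · intro x
    refine ⟨1 ⊗ₜ x, ?_⟩
    change π _ = _
    rw [hπ, map_one, one_smul]
  · intro r
    change π (r ⊗ₜ 1) = _
    rw [hπ, Algebra.algebraMap_eq_smul_one]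

end basic

section alg

variable [IsAlgClosed k]

theorem mdeg_one : mdeg k k = 1 := by
  apply le_antisymm
  · exact mdeg_le fam_self
  · have h1 := finrank_le_mdeg (k := k) k
    rwa [Module.finrank_self] at h1

theorem mdeg_zero : mdeg k PUnit.{1} = 0 :=
  Nat.le_zero.1 (mdeg_le (Pool.Agent.R836.Emb.fam_zero (k := k) PUnit.{1}))

theorem mdeg_tensor_le (A B : Type) [CommRing A] [Algebra k A] [Module.Finite k A] [CommRing B]
    [Algebra k B] [Module.Finite k B] : mdeg k (A ⊗[k] B) ≤ mdeg k A * mdeg k B := by
  obtain ⟨D, hD⟩ := exists_fam (k := k) A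
  obtain ⟨E, hE⟩ := exists_fam (k := k) B
  refine mdeg_le (Fam.join (mdeg_spec hD) (mdeg_spec hE) Algebra.TensorProduct.includeLeft
    Algebra.TensorProduct.includeRight ?_)
  have h1 := Algebra.TensorProduct.productMap_range
    (Algebra.TensorProduct.includeLeft : A →ₐ[k] A ⊗[k] B)
    (Algebra.TensorProduct.includeRight : B →ₐ[k] A ⊗[k] B)
  rw [← h1, eq_top_iff]
  intro x _
  induction x using TensorProduct.induction_on with
  | zero => exact Subalgebra.zero_mem _
  | add x y hx hy => exact Subalgebra.add_mem _ (hx trivial) (hy trivial)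
  | tmul a b =>
    refine ⟨a ⊗ₜ b, ?_⟩
    change Algebra.TensorProduct.productMap _ _ _ = _
    rw [Algebra.TensorProduct.productMap_apply_tmul, Algebra.TensorProduct.includeLeft_apply,
      Algebra.TensorProduct.includeRight_apply, Algebra.TensorProduct.tmul_mul_tmul, mul_one,
      one_mul]

/-- the least degree of a smoothable scheme containing a class -/
noncomputable def mu : Cls k → ℕ :=
  Quotient.lift (fun A : FA k => mdeg k A.car) fun _ _ ⟨e⟩ => mdeg_congr e

theorem mu_cls (A : Type) [CommRing A] [Algebra k A] [Module.Finite k A] :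
    mu (cls k A) = mdeg k A := rfl

theorem mu_zero : mu (0 : Cls k) = 0 := mdeg_zero

theorem mu_one : mu (1 : Cls k) = 1 := mdeg_one

theorem mu_add (a b : Cls k) : mu (a + b) = mu a + mu b := by
  induction a using cls_ind with | _ A
  induction b using cls_ind with | _ B
  exact mdeg_prod' k A B

theorem mu_mul (a b : Cls k) : mu (a * b) ≤ mu a * mu b := by
  induction a using cls_ind with | _ A
  induction b using cls_ind with | _ B
  exact mdeg_tensor_le A B

theorem mu_nat_mul (n : ℕ) (a : Cls k) : mu ((n : Cls k) * a) = n * mu a := by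
  induction n with
  | zero => rw [Nat.cast_zero, zero_mul, mu_zero, zero_mul]
  | succ n ih => rw [Nat.cast_succ, add_mul, one_mul, mu_add, ih, Nat.add_mul, one_mul]

theorem mu_nat (n : ℕ) : mu (n : Cls k) = n := by
  have h := mu_nat_mul (k := k) n 1
  rw [mul_one, mu_one, mul_one] at h
  exact h

end alg

/-- the powers of a scheme -/
abbrev FA.power (A : FA k) (n : ℕ) : FA k := ⟨Pow k A.car n⟩

theorem finCons_equiv (X : Type) [CommRing X] [Algebra k X] (n : ℕ) :
    Nonempty ((Fin (n + 1) → X) ≃ₐ[k] ((Fin n → X) × X)) := by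
  refine ⟨AlgEquiv.ofBijective
    ({ toFun := fun f => (fun i => f i.castSucc, f (Fin.last n))
       map_one' := rfl
       map_zero' := rfl
       map_mul' := fun _ _ => rfl
       map_add' := fun _ _ => rfl
       commutes' := fun _ => rfl } : (Fin (n + 1) → X) →ₐ[k] ((Fin n → X) × X)) ⟨?_, ?_⟩⟩
  · intro f g h
    have h1 : (fun i : Fin n => f i.castSucc) = fun i => g i.castSucc := congrArg Prod.fst h
    have h2 : f (Fin.last n) = g (Fin.last n) := congrArg Prod.snd h
    funext i
    refine Fin.lastCases h2 (fun i => ?_) i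
    exact congrFun h1 i
  · rintro ⟨f, x⟩
    refine ⟨Fin.snoc f x, ?_⟩
    refine Prod.ext ?_ ?_
    · funext i
      exact Fin.snoc_castSucc (α := fun _ => X) x f i
    · exact Fin.snoc_last (α := fun _ => X) x f

theorem cls_fin (X : Type) [CommRing X] [Algebra k X] [Module.Finite k X] (n : ℕ) :
    cls k (Fin n → X) = (n : Cls k) * cls k X := by
  induction n with
  | zero =>
    rw [Nat.cast_zero, zero_mul, cls_zero]
    refine cls_eq (AlgEquiv.ofBijective
      ({ toFun := fun _ => 0
         map_one' := rfl
         map_zero' := rfl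
         map_mul' := fun _ _ => rfl
         map_add' := fun _ _ => rfl
         commutes' := fun _ => rfl } : (Fin 0 → X) →ₐ[k] PUnit.{1})
      ⟨fun x y _ => Subsingleton.elim x y, fun y => ⟨0, rfl⟩⟩)
  | succ n ih =>
    rw [Nat.cast_succ, add_mul, one_mul, ← ih, cls_add]
    exact cls_iff.2 (finCons_equiv X n)

theorem cls_pow (X : Type) [CommRing X] [Algebra k X] [Module.Finite k X] (n : ℕ) :
    cls k (Pow k X n) = cls k X ^ n := by
  induction n with
  | zero => rw [pow_zero, cls_one]; exact cls_eq (powZero k X)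
  | succ n ih => rw [pow_succ', ← ih, cls_mul]; exact cls_eq (powSucc k X n)

/-- the preorder on classes -/
def leC (a b : Cls k) : Prop := ∃ A B : FA k, cls k A.car = a ∧ cls k B.car = b ∧ Below k A B

theorem Below.of_equiv {A B : FA k} (e : A.car ≃ₐ[k] B.car) : Below k A B :=
  .subquotient A B (IsSubquotient.of_injective e.toAlgHom e.injective)

theorem Below.refl (A : FA k) : Below k A A := Below.of_equiv AlgEquiv.refl

theorem leC_iff (A B : FA k) : leC (cls k A.car) (cls k B.car) ↔ Below k A B := by
  constructor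
  · rintro ⟨A', B', h1, h2, h3⟩
    obtain ⟨e⟩ := cls_iff.1 h1
    obtain ⟨f⟩ := cls_iff.1 h2
    exact .trans _ _ _ (Below.of_equiv e.symm) (.trans _ _ _ h3 (Below.of_equiv f))
  · intro h
    exact ⟨A, B, rfl, rfl, h⟩

section alg

variable [IsAlgClosed k]

/-- all tests by least degrees are monotone -/
theorem Below.test {A B : FA k} (h : Below k A B) :
    ∀ c : Cls k, mu (cls k A.car * c) ≤ mu (cls k B.car * c) := by
  induction h with
  | subquotient A B h =>
    intro c
    induction c using cls_ind with | _ C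
    exact (isSubquotient_tensor (C := C) h).mdeg_le
  | degeneration A B h =>
    intro c
    induction c using cls_ind with | _ C
    obtain ⟨D, hD⟩ := exists_fam (k := k) (B.car ⊗[k] C)
    exact mdeg_le (Fam.dg (mdeg_spec hD) (h.dg.tensor (dg_refl C)))
  | smoothable A h =>
    intro c
    change _ ≤ mu (cls k (Fin (Module.finrank k A.car) → k) * c)
    rw [cls_fin, ← cls_one, mul_one, mu_nat_mul]
    refine (mu_mul _ _).trans (Nat.mul_le_mul_right _ ?_)
    rw [mu_cls]
    exact mdeg_le (Smoothable.fam h)
  | trans A B C _ _ h1 h2 => exact fun c => (h1 c).trans (h2 c)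
  | prod A B C D _ _ h1 h2 =>
    intro c
    change mu ((cls k A.car + cls k C.car) * c) ≤ mu ((cls k B.car + cls k D.car) * c)
    rw [add_mul, add_mul, mu_add, mu_add]
    exact Nat.add_le_add (h1 c) (h2 c)
  | tensor A B C D _ _ h1 h2 =>
    intro c
    change mu ((cls k A.car * cls k C.car) * c) ≤ mu ((cls k B.car * cls k D.car) * c)
    rw [mul_assoc, mul_assoc]
    refine (h1 _).trans ?_
    rw [mul_left_comm, mul_left_comm (cls k B.car)]
    exact h2 _

theorem leC.test {a b : Cls k} (h : leC a b) (c : Cls k) : mu (a * c) ≤ mu (b * c) := by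
  obtain ⟨A, B, rfl, rfl, h⟩ := h
  exact h.test c

theorem leC.mu {a b : Cls k} (h : leC a b) : mu a ≤ mu b := by
  have := h.test 1
  rwa [mul_one, mul_one] at this

theorem base_leC : Base (leC (k := k)) where
  refl a := by
    induction a using cls_ind with | _ A
    exact (leC_iff ⟨A⟩ ⟨A⟩).2 (Below.refl _)
  trans a b c h1 h2 := by
    induction a using cls_ind with | _ A
    induction b using cls_ind with | _ B
    induction c using cls_ind with | _ C
    exact (leC_iff ⟨A⟩ ⟨C⟩).2 (.trans _ _ _ ((leC_iff ⟨A⟩ ⟨B⟩).1 h1) ((leC_iff ⟨B⟩ ⟨C⟩).1 h2))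
  add a b c h := by
    induction a using cls_ind with | _ A
    induction b using cls_ind with | _ B
    induction c using cls_ind with | _ C
    exact (leC_iff ⟨A × C⟩ ⟨B × C⟩).2
      (.prod ⟨A⟩ ⟨B⟩ ⟨C⟩ ⟨C⟩ ((leC_iff ⟨A⟩ ⟨B⟩).1 h) (Below.refl _))
  mul a b c h := by
    induction a using cls_ind with | _ A
    induction b using cls_ind with | _ B
    induction c using cls_ind with | _ C
    exact (leC_iff ⟨A ⊗[k] C⟩ ⟨B ⊗[k] C⟩).2
      (.tensor ⟨A⟩ ⟨B⟩ ⟨C⟩ ⟨C⟩ ((leC_iff ⟨A⟩ ⟨B⟩).1 h) (Below.refl _))
  zero a := by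
    induction a using cls_ind with | _ A
    refine (leC_iff ⟨PUnit.{1}⟩ ⟨A⟩).2 (.subquotient _ _ (IsSubquotient.of_surjective
      ({ toFun := fun _ => 0
         map_one' := rfl
         map_zero' := rfl
         map_mul' := fun _ _ => rfl
         map_add' := fun _ _ => rfl
         commutes' := fun _ => rfl } : A →ₐ[k] PUnit.{1}) fun y => ⟨0, rfl⟩))
  arch a := by
    induction a using cls_ind with | _ A
    obtain ⟨D, hD⟩ := exists_fam (k := k) A
    obtain ⟨D', -, B, cB, aB, hBf, hBs, hBd, f, hf⟩ := hD.inSmoothable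
    refine ⟨D', ?_⟩
    have h1 : (D' : Cls k) = cls k (Fin (Module.finrank k B) → k) := by
      rw [cls_fin, ← cls_one, mul_one, hBd]
    rw [h1]
    exact (leC_iff ⟨A⟩ ⟨Fin (Module.finrank k B) → k⟩).2
      (.trans _ ⟨B⟩ _ (.subquotient _ _ (IsSubquotient.of_surjective f hf)) (.smoothable ⟨B⟩ hBs))
  one a := by
    induction a using cls_ind with | _ A
    rcases subsingleton_or_nontrivial A with hs | hs
    · left
      rw [cls_zero]
      exact cls_eq (AlgEquiv.ofBijective
        ({ toFun := fun _ => 0
           map_one' := rfl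
           map_zero' := rfl
           map_mul' := fun _ _ => rfl
           map_add' := fun _ _ => rfl
           commutes' := fun _ => rfl } : A →ₐ[k] PUnit.{1})
        ⟨fun x y _ => Subsingleton.elim x y, fun y => ⟨0, rfl⟩⟩)
    · right
      rw [cls_one]
      exact (leC_iff ⟨k⟩ ⟨A⟩).2 (.subquotient _ _ (IsSubquotient.of_injective (Algebra.ofId k A)
        (algebraMap k A).injective))
  nat n m h := by
    have := h.mu
    rwa [mu_nat, mu_nat] at this

end alg

end Pool.Agent.L7h86.AS
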