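import Mathlib

/-!
# The semiring of the isomorphism classes of finite algebras
-/

set_option autoImplicit false

namespace Pool.Agent.L7h86.AS

open scoped TensorProduct

variable (k : Type) [Field k]

/-- a finite algebra -/
structure FA : Type 1 where
  /-- the algebra -/
  car : Type
  [ring : CommRing car]
  [alg : Algebra k car]
  [fin : Module.Finite k car]

attribute [instance] FA.ring FA.alg FA.fin

namespace FA

variable {k}

/-- a point -/
abbrev point (k : Type) [Field k] : FA k := ⟨k⟩

/-- the product of algebras (disjoint union of schemes) -/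
abbrev prod (A B : FA k) : FA k := ⟨A.car × B.car⟩

/-- the tensor product of algebras (product of schemes) -/
abbrev tensor (A B : FA k) : FA k := ⟨A.car ⊗[k] B.car⟩

/-- `n` copies of the scheme -/
abbrev copies (n : ℕ) (A : FA k) : FA k := ⟨Fin n → A.car⟩

/-- finite products of algebras (disjoint unions of schemes) -/
abbrev pi {n : ℕ} (X : Fin n → FA k) : FA k := ⟨∀ i, (X i).car⟩

end FA

variable {k}

/-- isomorphism -/
instance FA.setoid : Setoid (FA k) where
  r A B := Nonempty (A.car ≃ₐ[k] B.car)
  iseqv := ⟨fun _ => ⟨AlgEquiv.refl⟩, fun ⟨e⟩ => ⟨e.symm⟩, fun ⟨e⟩ ⟨f⟩ => ⟨e.trans f⟩⟩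

variable (k)

/-- the isomorphism classes of finite algebras -/
def Cls : Type 1 := Quotient (FA.setoid (k := k))

variable {k}

/-- the class of a finite algebra -/
def cls (k : Type) [Field k] (A : Type) [CommRing A] [Algebra k A] [Module.Finite k A] : Cls k :=
  Quotient.mk _ ⟨A⟩

theorem cls_eq {A B : Type} [CommRing A] [Algebra k A] [Module.Finite k A] [CommRing B]
    [Algebra k B] [Module.Finite k B] (e : A ≃ₐ[k] B) : cls k A = cls k B :=
  Quotient.sound ⟨e⟩

theorem cls_iff {A B : Type} [CommRing A] [Algebra k A] [Module.Finite k A] [CommRing B]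
    [Algebra k B] [Module.Finite k B] : cls k A = cls k B ↔ Nonempty (A ≃ₐ[k] B) :=
  ⟨fun h => Quotient.exact h, fun ⟨e⟩ => cls_eq e⟩

theorem cls_ind {P : Cls k → Prop} (h : ∀ (A : Type) [CommRing A] [Algebra k A]
    [Module.Finite k A], P (cls k A)) (a : Cls k) : P a := by
  induction a using Quotient.inductionOn with
  | h a => exact h a.car

section equivs

variable (A B C : Type) [CommRing A] [Algebra k A] [CommRing B] [Algebra k B] [CommRing C]
  [Algebra k C]

theorem prodComm' : Nonempty ((A × B) ≃ₐ[k] (B × A)) :=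
  ⟨AlgEquiv.ofBijective ((AlgHom.snd k A B).prod (AlgHom.fst k A B))
    (by
      constructor
      · rintro ⟨a, b⟩ ⟨c, d⟩ h
        exact Prod.ext (congrArg Prod.snd h) (congrArg Prod.fst h)
      · rintro ⟨b, a⟩
        exact ⟨(a, b), rfl⟩)⟩

theorem prodAssoc' : Nonempty (((A × B) × C) ≃ₐ[k] (A × (B × C))) :=
  ⟨AlgEquiv.ofBijective (((AlgHom.fst k A B).comp (AlgHom.fst k (A × B) C)).prod
      (((AlgHom.snd k A B).comp (AlgHom.fst k (A × B) C)).prod (AlgHom.snd k (A × B) C)))
    (by
      constructor
      · rintro ⟨⟨a, b⟩, c⟩ ⟨⟨a', b'⟩, c'⟩ h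
        have h1 : a = a' := congrArg Prod.fst h
        have h2 : ((b, c) : B × C) = (b', c') := congrArg Prod.snd h
        have h3 : b = b' := congrArg Prod.fst h2
        have h4 : c = c' := congrArg Prod.snd h2
        rw [h1, h3, h4]
      · rintro ⟨a, b, c⟩
        exact ⟨((a, b), c), rfl⟩)⟩

theorem zeroMul' : Nonempty ((PUnit.{1} ⊗[k] A) ≃ₐ[k] PUnit.{1}) := by
  have hs : Subsingleton (PUnit.{1} ⊗[k] A) := by
    refine ⟨fun x y => ?_⟩
    have h0 : ∀ z : PUnit.{1} ⊗[k] A, z = 0 := by
      intro z
      induction z using TensorProduct.induction_on with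
      | zero => rfl
      | tmul a b => rw [Subsingleton.elim a 0, TensorProduct.zero_tmul]
      | add a b ha hb => rw [ha, hb, add_zero]
    rw [h0 x, h0 y]
  refine ⟨AlgEquiv.ofBijective
    ({ toFun := fun _ => 0
       map_one' := rfl
       map_zero' := rfl
       map_mul' := fun _ _ => rfl
       map_add' := fun _ _ => rfl
       commutes' := fun _ => rfl } : (PUnit.{1} ⊗[k] A) →ₐ[k] PUnit.{1})
    ⟨fun x y _ => Subsingleton.elim x y, fun y => ⟨0, rfl⟩⟩⟩

end equivs

instance : Zero (Cls k) := ⟨cls k PUnit.{1}⟩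
instance : One (Cls k) := ⟨cls k k⟩

instance : Add (Cls k) := ⟨Quotient.map₂ (fun A B => ⟨A.car × B.car⟩)
  (fun _ _ ⟨e⟩ _ _ ⟨f⟩ => ⟨AlgEquiv.prodCongr e f⟩)⟩

instance : Mul (Cls k) := ⟨Quotient.map₂ (fun A B => ⟨A.car ⊗[k] B.car⟩)
  (fun _ _ ⟨e⟩ _ _ ⟨f⟩ => ⟨Algebra.TensorProduct.congr e f⟩)⟩

section

variable (A B : Type) [CommRing A] [Algebra k A] [Module.Finite k A] [CommRing B]
    [Algebra k B] [Module.Finite k B]

theorem cls_zero : (0 : Cls k) = cls k PUnit.{1} := rfl
theorem cls_one : (1 : Cls k) = cls k k := rfl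
theorem cls_add : cls k A + cls k B = cls k (A × B) := rfl
theorem cls_mul : cls k A * cls k B = cls k (A ⊗[k] B) := rfl

end

theorem add_comm'' (a b : Cls k) : a + b = b + a := by
  induction a using cls_ind with | _ A
  induction b using cls_ind with | _ B
  exact cls_iff.2 (prodComm' A B)

theorem add_assoc'' (a b c : Cls k) : a + b + c = a + (b + c) := by
  induction a using cls_ind with | _ A
  induction b using cls_ind with | _ B
  induction c using cls_ind with | _ C
  exact cls_iff.2 (prodAssoc' A B C)

theorem add_zero'' (a : Cls k) : a + 0 = a := by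
  induction a using cls_ind with | _ A
  exact cls_eq AlgEquiv.prodUnique

theorem mul_comm'' (a b : Cls k) : a * b = b * a := by
  induction a using cls_ind with | _ A
  induction b using cls_ind with | _ B
  exact cls_eq (Algebra.TensorProduct.comm k A B)

theorem mul_assoc'' (a b c : Cls k) : a * b * c = a * (b * c) := by
  induction a using cls_ind with | _ A
  induction b using cls_ind with | _ B
  induction c using cls_ind with | _ C
  exact cls_eq (Algebra.TensorProduct.assoc k k k A B C)

theorem mul_one'' (a : Cls k) : a * 1 = a := by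
  induction a using cls_ind with | _ A
  exact cls_eq (Algebra.TensorProduct.rid k k A)

theorem zero_mul'' (a : Cls k) : 0 * a = 0 := by
  induction a using cls_ind with | _ A
  exact cls_iff.2 (zeroMul' A)

theorem mul_add'' (a b c : Cls k) : a * (b + c) = a * b + a * c := by
  induction a using cls_ind with | _ A
  induction b using cls_ind with | _ B
  induction c using cls_ind with | _ C
  exact cls_eq (Algebra.TensorProduct.prodRight k k A B C)

noncomputable instance : CommSemiring (Cls k) where
  add_assoc := add_assoc''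
  zero_add a := by rw [add_comm'', add_zero'']
  add_zero := add_zero''
  add_comm := add_comm''
  nsmul := nsmulRec
  left_distrib := mul_add''
  right_distrib a b c := by rw [mul_comm'', mul_add'', mul_comm'' c a, mul_comm'' c b]
  zero_mul := zero_mul''
  mul_zero a := by rw [mul_comm'', zero_mul'']
  mul_assoc := mul_assoc''
  one_mul a := by rw [mul_comm'', mul_one'']
  mul_one := mul_one''
  mul_comm := mul_comm''

end Pool.Agent.L7h86.AS
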